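import Pool.Agent.W500.CS.Stm2

/-!
# S_FINAL: the support is a finite union of arcs and points
-/

set_option autoImplicit false

namespace Pool.Agent.W177.CQ.FINAL

open MeasureTheory Metric Set Filter Topology Pool.Agent.W500.CS

theorem main : S_LOCAL → S_FINAL := by
  intro hL μ _ hc P hP hae
  obtain ⟨R, hR⟩ := hc.isBounded.subset_closedBall 0
  have h0 : μ (closedBall 0 R)ᶜ = 0 :=
    measure_mono_null (compl_subset_compl.2 hR) Measure.measure_compl_support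
  have hl := fun z₀ => hL μ ⟨R, h0⟩ P hP hae z₀
  choose n A hA hN using hl
  obtain ⟨t, ht, hcov⟩ := hc.elim_nhds_subcover
    (fun x => {z | z ∈ μ.support → z = x ∨ ∃ i, z ∈ A x i}) (fun x _ => hN x)
  obtain ⟨m, ⟨e⟩⟩ : ∃ m, Nonempty ((Σ x : t, Fin (n x)) ≃ Fin m) :=
    ⟨_, ⟨Fintype.equivFin _⟩⟩
  obtain ⟨B, hB⟩ : ∃ B : Fin m → Set ℂ, B = fun k => A (e.symm k).1 (e.symm k).2 := ⟨_, rfl⟩
  have key : ∀ s : (Σ x : t, Fin (n x)), B (e s) = A s.1 s.2 := by
    intro s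
    rw [hB]
    change A (e.symm (e s)).1 (e.symm (e s)).2 = A s.1 s.2
    rw [e.symm_apply_apply]
  have hBA : ∀ x ∈ t, ∀ i, A x i ⊆ ⋃ k, B k := by
    intro x hx i z hz
    rw [mem_iUnion]
    refine ⟨e ⟨⟨x, hx⟩, i⟩, ?_⟩
    rw [key]
    exact hz
  refine ⟨m, B, {c | c ∈ t ∧ c ∉ ⋃ k, B k}, ?_, ?_, ?_, ?_⟩
  · intro k
    rw [hB]
    exact (hA _ _).1
  · exact t.finite_toSet.subset fun c hc => hc.1
  · rw [Set.disjoint_left]
    intro c hc
    exact hc.2
  · apply Subset.antisymm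
    · intro z hz
      have h1 := hcov hz
      rw [mem_iUnion₂] at h1
      obtain ⟨x, hx, h2⟩ := h1
      rcases h2 hz with h3 | ⟨i, h3⟩
      · by_cases h4 : z ∈ ⋃ k, B k
        · exact Or.inl h4
        · exact Or.inr ⟨by rw [h3]; exact hx, h4⟩
      · exact Or.inl (hBA x hx i h3)
    · rintro z (hz | hz)
      · rw [mem_iUnion] at hz
        obtain ⟨k, hk⟩ := hz
        rw [hB] at hk
        exact (hA _ _).2 hk
      · exact ht z hz.1

end Pool.Agent.W177.CQ.FINAL
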